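import Pool.Agent.helper79.Cov5
import Pool.Agent.helper79.DyadicPrimes

open Finset

namespace Pool.Agent.helper79.Parked.SlicesBound

/-- The primes `p` with `N^α ≤ p < 2 N^α` (recall `p < ⌈x⌉₊ ↔ (p : ℝ) < x`). -/
noncomputable def primesNear (α : ℝ) (N : ℕ) : Finset ℕ :=
  (Finset.range ⌈2 * (N : ℝ) ^ α⌉₊).filter (fun p => p.Prime ∧ (N : ℝ) ^ α ≤ p)

theorem mem_primesNear {α : ℝ} {N p : ℕ} :
    p ∈ primesNear α N ↔ p.Prime ∧ (N : ℝ) ^ α ≤ p ∧ (p : ℝ) < 2 * (N : ℝ) ^ α := by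
  rw [primesNear, Finset.mem_filter, Finset.mem_range, Nat.lt_ceil]
  tauto

theorem card_primesNear_ge {α : ℝ} (h0 : 0 < α) (h1 : α < 1) :
    ∀ᶠ N : ℕ in Filter.atTop, (N : ℝ) ^ α / (16 * Real.log N) ≤ (primesNear α N).card := by
  have ev1 : ∀ᶠ N : ℕ in Filter.atTop, (200000000 : ℝ) ≤ (N : ℝ) ^ α :=
    ((tendsto_rpow_atTop h0).comp tendsto_natCast_atTop_atTop).eventually_ge_atTop _
  filter_upwards [ev1, Filter.eventually_ge_atTop 3] with N hX hN
  have hN3 : (3 : ℝ) ≤ N := by exact_mod_cast hN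
  have hN0 : (0 : ℝ) < N := by linarith
  set X : ℝ := (N : ℝ) ^ α with hXd
  set n : ℕ := ⌊X⌋₊ with hn
  have hnX : (n : ℝ) ≤ X := Nat.floor_le (by linarith)
  have hnX2 : X < n + 1 := Nat.lt_floor_add_one X
  have hn8 : 100000000 ≤ n := by
    have : (100000000 : ℝ) ≤ n := by linarith
    exact_mod_cast this
  have hsub : Pool.Agent.helper79.DyadicPrimes.dy n ⊆ primesNear α N := by
    intro p hp
    rw [Pool.Agent.helper79.DyadicPrimes.dy, Finset.mem_filter, Finset.mem_Ioc] at hp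
    obtain ⟨⟨hp1, hp2⟩, hp3⟩ := hp
    rw [mem_primesNear]
    refine ⟨hp3, ?_, ?_⟩
    · have : (n : ℝ) + 1 ≤ p := by exact_mod_cast hp1
      linarith
    · have h2 : p ≠ 2 * n := by
        intro h2
        have h3 : 2 ∣ p := ⟨n, h2⟩
        rcases (Nat.dvd_prime hp3).mp h3 with h4 | h4
        · omega
        · omega
      have h3 : p < 2 * n := lt_of_le_of_ne hp2 h2
      have h4 : (p : ℝ) < 2 * n := by exact_mod_cast h3
      linarith
  have hc := Pool.Agent.helper79.DyadicPrimes.card_dy_ge hn8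
  have hc2 : ((Pool.Agent.helper79.DyadicPrimes.dy n).card : ℝ) ≤ (primesNear α N).card := by
    exact_mod_cast Finset.card_le_card hsub
  refine le_trans ?_ (hc.trans hc2)
  have hn8R : (100000000 : ℝ) ≤ n := by exact_mod_cast hn8
  have hlogn : 0 < Real.log n := Real.log_pos (by linarith)
  have hlogN : Real.log n ≤ Real.log N := by
    apply Real.log_le_log (by linarith)
    exact hnX.trans (Real.rpow_le_self_of_one_le (by linarith) h1.le)
  rw [div_le_div_iff₀ (by linarith) (by linarith)]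
  have h2 : X ≤ 2 * n := by linarith
  calc X * (8 * Real.log n) ≤ (2 * n) * (8 * Real.log N) := by gcongr
    _ = n * (16 * Real.log N) := by ring

open Pool.Agent.helper79.Cov in
theorem kakeya_bound (α : ℝ) (h0 : 0 < α) (h1 : α < 1) :
    ∀ᶠ N : ℕ in Filter.atTop, ∀ a : ℕ → ℕ, ∀ Ps : Finset ℕ,
      (∀ p ∈ Ps, p.Prime ∧ (N : ℝ) ^ α ≤ p ∧ (p : ℝ) < 2 * (N : ℝ) ^ α) →
      (N : ℝ) ^ α / (16 * Real.log N) ≤ Ps.card →
      (N : ℝ) ^ (1 - 3 * α / 7) / (896 * Real.log N) ≤ (cov N a Ps).card := by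
  have ev1 : ∀ᶠ N : ℕ in Filter.atTop, (56 : ℝ) ≤ (N : ℝ) ^ (1 - α) :=
    ((tendsto_rpow_atTop (by linarith : 0 < 1 - α)).comp
      tendsto_natCast_atTop_atTop).eventually_ge_atTop _
  filter_upwards [ev1, Filter.eventually_ge_atTop 3] with N hL hN
  intro a Ps hPs hcard
  have hN3 : (3 : ℝ) ≤ N := by exact_mod_cast hN
  have hN0 : (0 : ℝ) < N := by linarith
  have hlog : 1 ≤ Real.log N := by
    rw [Real.le_log_iff_exp_le hN0]
    have := Real.exp_one_lt_d9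
    linarith
  set X : ℝ := (N : ℝ) ^ α with hXdef
  have hX1 : 1 ≤ X := Real.one_le_rpow (by linarith) h0.le
  set P : ℕ := ⌈X⌉₊ with hP
  have hPX : X ≤ P := Nat.le_ceil X
  have hPX2 : (P : ℝ) ≤ 2 * X := by
    have := Nat.ceil_lt_add_one (by linarith : 0 ≤ X)
    rw [← hP] at this
    linarith
  have hPpos : (0 : ℝ) < P := by linarith
  have hPpos' : 0 < P := by exact_mod_cast hPpos
  have hXL : X * (N : ℝ) ^ (1 - α) = N := by
    rw [hXdef, ← Real.rpow_add hN0]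
    simp
  have hb := blocks_bound (N := N) (P := P) (a := a) (Ps := Ps) hPpos' (by
    intro p hp
    obtain ⟨e1, e2, e3⟩ := hPs p hp
    refine ⟨e1.pos, ?_⟩
    have : (p : ℝ) < 2 * P := by linarith
    have : p < 2 * P := by exact_mod_cast this
    exact this.le)
  refine le_trans ?_ hb
  have hJ : (N : ℝ) ^ (1 - α) / 56 ≤ ((N / (14 * P) : ℕ) : ℝ) := by
    have e1 : (N : ℝ) ^ (1 - α) / 28 ≤ N / (14 * P) := by
      rw [le_div_iff₀ (by positivity)]
      calc (N : ℝ) ^ (1 - α) / 28 * (14 * P) ≤ (N : ℝ) ^ (1 - α) / 28 * (14 * (2 * X)) := by gcongr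
        _ = X * (N : ℝ) ^ (1 - α) := by ring
        _ = N := hXL
    have e2 : (N : ℝ) / (14 * P) < (N / (14 * P) : ℕ) + 1 := by
      have := Nat.lt_floor_add_one ((N : ℝ) / ((14 * P : ℕ) : ℝ))
      rw [Nat.floor_div_eq_div] at this
      push_cast at this
      exact this
    linarith
  have hq : X ^ (4 / 7 : ℝ) / (16 * Real.log N) ≤ (Ps.card : ℝ) ^ (4 / 7 : ℝ) := by
    have e1 : (X / (16 * Real.log N)) ^ (4 / 7 : ℝ) ≤ (Ps.card : ℝ) ^ (4 / 7 : ℝ) :=
      Real.rpow_le_rpow (by positivity) hcard (by norm_num)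
    refine le_trans ?_ e1
    rw [Real.div_rpow (by positivity) (by positivity)]
    apply div_le_div_of_nonneg_left (by positivity) (by positivity)
    exact Real.rpow_le_self_of_one_le (by linarith) (by norm_num)
  have hfin : (N : ℝ) ^ (1 - 3 * α / 7) / (896 * Real.log N) =
      (N : ℝ) ^ (1 - α) / 56 * (X ^ (4 / 7 : ℝ) / (16 * Real.log N)) := by
    have e1 : (N : ℝ) ^ (1 - 3 * α / 7) = (N : ℝ) ^ (1 - α) * X ^ (4 / 7 : ℝ) := by
      rw [hXdef, ← Real.rpow_mul hN0.le, ← Real.rpow_add hN0]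
      congr 1
      ring
    rw [e1]
    field_simp
    norm_num
  rw [hfin]
  exact mul_le_mul hJ hq (by positivity) (Nat.cast_nonneg _)

open Pool.Agent.helper79.Cov in
/-- **Main theorem.** For every `0 < α < 1` and all large `N`, every choice of one residue class
per prime `p ∈ [N^α, 2N^α)` covers at least `N^(1 - 3α/7) / (896 log N)` integers of `{1, …, N}`. -/
theorem result (α : ℝ) (hα : 0 < α) (hα1 : α < 1) :
    ∃ N₀ : ℕ, ∀ N : ℕ, N₀ ≤ N → ∀ a : (p : ℕ) → ZMod p,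
      (N : ℝ) ^ (1 - 3 * α / 7) / (896 * Real.log N) ≤
        ({n : ℕ | 1 ≤ n ∧ n ≤ N ∧ ∃ p : ℕ, p.Prime ∧ (N : ℝ) ^ α ≤ p ∧ (p : ℝ) < 2 * (N : ℝ) ^ α ∧
          (n : ZMod p) = a p}.ncard : ℝ) := by
  classical
  obtain ⟨N₂, hN₂⟩ := Filter.eventually_atTop.mp
    ((card_primesNear_ge hα hα1).and (kakeya_bound α hα hα1))
  refine ⟨max N₂ 3, ?_⟩
  intro N hN a
  have hN2 : N₂ ≤ N := (le_max_left _ _).trans hN
  obtain ⟨hcard, hkak⟩ := hN₂ N hN2
  have hPs : ∀ p ∈ primesNear α N, p.Prime ∧ (N : ℝ) ^ α ≤ p ∧ (p : ℝ) < 2 * (N : ℝ) ^ α :=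
    fun p hp => mem_primesNear.mp hp
  have hsurj : ∀ p : ℕ, ∃ z : ℕ, p.Prime → (z : ZMod p) = a p := by
    intro p
    rcases Nat.eq_zero_or_pos p with h | h
    · exact ⟨0, fun hp => by subst h; exact absurd hp (by norm_num)⟩
    · have : NeZero p := ⟨h.ne'⟩
      exact ⟨(a p).val, fun _ => ZMod.natCast_zmod_val (a p)⟩
  choose r hr using hsurj
  refine (hkak r _ hPs hcard).trans (le_of_eq ?_)
  have hset : {n : ℕ | 1 ≤ n ∧ n ≤ N ∧ ∃ p : ℕ, p.Prime ∧ (N : ℝ) ^ α ≤ p ∧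
      (p : ℝ) < 2 * (N : ℝ) ^ α ∧ (n : ZMod p) = a p} =
      (cov N r (primesNear α N) : Set ℕ) := by
    ext n
    rw [Finset.mem_coe, mem_cov]
    simp only [Set.mem_setOf_eq, mem_cls, mem_primesNear]
    constructor
    · rintro ⟨h1, h2, p, h3, h4, h5, h6⟩
      refine ⟨p, ⟨h3, h4, h5⟩, ⟨h1, h2⟩, ?_⟩
      rw [← hr p h3] at h6
      exact (ZMod.natCast_eq_natCast_iff n (r p) p).mp h6
    · rintro ⟨p, ⟨h3, h4, h5⟩, ⟨h1, h2⟩, h6⟩
      refine ⟨h1, h2, p, h3, h4, h5, ?_⟩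
      rw [← hr p h3]
      exact (ZMod.natCast_eq_natCast_iff n (r p) p).mpr h6
  rw [hset, Set.ncard_coe_finset]

end Pool.Agent.helper79.Parked.SlicesBound
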